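import Pool.Agent.H83.G.Targets3
import Pool.Agent.H61.G.Basic

/-!
Theorem G (MP_ee74d2_an), row OEN: one end.
-/

set_option autoImplicit false

namespace Pool.Agent.H26.G.OEN

open MeasureTheory Set Pool.Agent.H83.G Pool.Agent.H61.G
open scoped ENNReal NNReal RealInnerProductSpace

variable {m : ℕ}

private theorem fl_dist {ρ : ℝ} (hρ : 0 < ρ) (x : ℝ) : |x - ρ * (⌊x / ρ⌋ : ℝ)| ≤ ρ := by
  have h1 := Int.floor_le (x / ρ)
  have h2 := (Int.lt_floor_add_one (x / ρ)).le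
  have e1 : x = ρ * (x / ρ) := by field_simp
  have h3 : ρ * (⌊x / ρ⌋ : ℝ) ≤ ρ * (x / ρ) := mul_le_mul_of_nonneg_left h1 hρ.le
  have h4 : ρ * (x / ρ) ≤ ρ * ((⌊x / ρ⌋ : ℝ) + 1) := mul_le_mul_of_nonneg_left h2 hρ.le
  rw [abs_le]
  constructor <;> linarith

/-- a point is close to the corner of its cube -/
private theorem cb_dist {ρ : ℝ} (hρ : 0 < ρ) (z : Z m) :
    ‖z - ρ • zc (cb ρ z)‖ ≤ ((m : ℝ) + 1) * ρ := by
  have hm : (0 : ℝ) ≤ m := Nat.cast_nonneg m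
  have h1 : ρ ≤ ((m : ℝ) + 1) * ρ := by
    have := mul_nonneg hm hρ.le
    linarith
  refine max_le ?_ (max_le ?_ ?_)
  · change ‖z.1 - ρ • ((⌊z.1 / ρ⌋ : ℤ) : ℝ)‖ ≤ _
    rw [smul_eq_mul, Real.norm_eq_abs]
    exact (fl_dist hρ _).trans h1
  · change ‖z.2.1 - ρ • (WithLp.toLp 2 (fun i => ((⌊z.2.1 i / ρ⌋ : ℤ) : ℝ)) : E m)‖ ≤ _
    rw [EuclideanSpace.norm_eq]
    refine Real.sqrt_le_iff.2 ⟨by positivity, ?_⟩
    have h2 : ∀ i : Fin m,
        ‖(z.2.1 - ρ • (WithLp.toLp 2 (fun i => ((⌊z.2.1 i / ρ⌋ : ℤ) : ℝ)) : E m)) i‖ ^ 2 ≤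
          ρ ^ 2 := by
      intro i
      refine pow_le_pow_left₀ (norm_nonneg _) ?_ 2
      have := fl_dist hρ (z.2.1 i)
      simpa [Real.norm_eq_abs] using this
    calc ∑ i : Fin m, ‖(z.2.1 - ρ • (WithLp.toLp 2 (fun i => ((⌊z.2.1 i / ρ⌋ : ℤ) : ℝ)) :
        E m)) i‖ ^ 2 ≤ ∑ _i : Fin m, ρ ^ 2 := Finset.sum_le_sum fun i _ => h2 i
      _ = (m : ℝ) * ρ ^ 2 := by simp
      _ ≤ (((m : ℝ) + 1) * ρ) ^ 2 := by
        rw [mul_pow]
        refine mul_le_mul_of_nonneg_right ?_ (sq_nonneg ρ)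
        have := mul_nonneg hm hm
        linarith [sq_nonneg (m : ℝ), show ((m : ℝ) + 1) ^ 2 = (m : ℝ) ^ 2 + 2 * m + 1 by ring]
  · change ‖z.2.2 - ρ • ((⌊z.2.2 / ρ⌋ : ℤ) : ℝ)‖ ≤ _
    rw [smul_eq_mul, Real.norm_eq_abs]
    exact (fl_dist hρ _).trans h1

private theorem rg_mono {κ κ' c : ℝ} (hκ : κ ≤ κ') (hκ1 : κ ≤ 1) (hc : 0 ≤ c) {ζ : Z m}
    (h : ζ ∈ Rg m κ c) : ζ ∈ Rg m κ' c := by
  obtain ⟨h1, h2, h3, h4⟩ := h
  have h0 : 0 ≤ ζ.1 := by linarith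
  refine ⟨by linarith, by linarith, h3.trans ?_, h4.trans ?_⟩
  · exact mul_le_mul_of_nonneg_right (by linarith) h0
  · exact mul_le_mul_of_nonneg_right (by linarith) hc

private theorem cls_mono {L : ℕ} {κ κ' R A : ℝ} {G : Z m → ℂ} (hκ : κ ≤ κ') (hκ1 : κ ≤ 1)
    (hR : 0 ≤ R) (h : Cls L κ R A G) : Cls L κ' R A G :=
  ⟨h.1, fun ζ hζ => rg_mono hκ hκ1 (inv_nonneg.2 hR) (h.2.1 ζ hζ), h.2.2⟩

/-- the exponents -/
private theorem expo {R ε₀ δ A Cs : ℝ} (hm : 1 ≤ m) (hR : 1 ≤ R) (hδ : 0 < δ)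
    (hA : 0 < A) (hCs : 1 ≤ Cs) :
    (Cs * R ^ δ * A * (R / R ^ (1 - ε₀)) ^ ((m : ℝ) / 2)) ^ xm m * (R ^ (1 - ε₀)) ^ (1 / 3 : ℝ) *
      (R ^ (lo m * δ) * (R ^ (1 - ε₀) / R)) ≤
    Cs ^ xm m * R ^ (2 * lo m * δ) * A ^ xm m * R ^ (1 / 3 : ℝ) := by
  have hR0 : 0 < R := by linarith
  have hmr : (1 : ℝ) ≤ m := by exact_mod_cast hm
  have e1 : R / R ^ (1 - ε₀) = R ^ ε₀ := by
    nth_rewrite 1 [← Real.rpow_one R]
    rw [← Real.rpow_sub hR0]
    congr 1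
    ring
  have e2 : R ^ (1 - ε₀) / R = R ^ (-ε₀) := by
    nth_rewrite 2 [← Real.rpow_one R]
    rw [← Real.rpow_sub hR0]
    congr 1
    ring
  have hx : xm m ≤ lo m := by
    unfold xm lo
    rw [div_le_iff₀ (by positivity)]
    have h1 := mul_le_mul_of_nonneg_left hmr (show (0 : ℝ) ≤ m by linarith)
    have h2 : (0 : ℝ) ≤ (m : ℝ) * m := by positivity
    linarith [show 100 * ((m : ℝ) + 2) * (3 * m) = 300 * (m * m) + 600 * m by ring]
  have e3 : (m : ℝ) / 2 * xm m = 4 / 3 := by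
    unfold xm
    field_simp
    norm_num
  rw [e1, e2, ← Real.rpow_mul hR0.le, ← Real.rpow_mul hR0.le,
    Real.mul_rpow (by positivity) (by positivity), Real.mul_rpow (by positivity) hA.le,
    Real.mul_rpow (by linarith) (by positivity), ← Real.rpow_mul hR0.le, ← Real.rpow_mul hR0.le]
  have e4 : Cs ^ xm m * R ^ (δ * xm m) * A ^ xm m * R ^ (ε₀ * ((m : ℝ) / 2) * xm m) *
      R ^ ((1 - ε₀) * (1 / 3)) * (R ^ (lo m * δ) * R ^ (-ε₀)) =
      Cs ^ xm m * A ^ xm m * (R ^ (δ * xm m) * R ^ (ε₀ * ((m : ℝ) / 2) * xm m) *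
      R ^ ((1 - ε₀) * (1 / 3)) * R ^ (lo m * δ) * R ^ (-ε₀)) := by ring
  have e5 : R ^ (δ * xm m) * R ^ (ε₀ * ((m : ℝ) / 2) * xm m) * R ^ ((1 - ε₀) * (1 / 3)) *
      R ^ (lo m * δ) * R ^ (-ε₀) = R ^ (δ * xm m + lo m * δ + 1 / 3) := by
    rw [← Real.rpow_add hR0, ← Real.rpow_add hR0, ← Real.rpow_add hR0, ← Real.rpow_add hR0]
    congr 1
    have e6 : ε₀ * ((m : ℝ) / 2) * xm m = ε₀ * (4 / 3) := by
      rw [mul_assoc, e3]
    rw [e6]
    ring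
  have e7 : Cs ^ xm m * R ^ (2 * lo m * δ) * A ^ xm m * R ^ (1 / 3 : ℝ) =
      Cs ^ xm m * A ^ xm m * R ^ (2 * lo m * δ + 1 / 3) := by
    rw [Real.rpow_add hR0]
    ring
  rw [e4, e5, e7]
  refine mul_le_mul_of_nonneg_left (Real.rpow_le_rpow_of_exponent_le hR ?_) (by positivity)
  have := mul_le_mul_of_nonneg_left hx hδ.le
  linarith [show 2 * lo m * δ = δ * lo m + lo m * δ by ring]

private theorem count {R r δ : ℝ} (S : Finset (Pk m)) (QQ BB : Finset (Zi m)) (l k : ℕ)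
    (hBB : BB ⊆ QQ.image (bl R r)) (f : Pk m → ℝ) (hf : ∀ W, 0 ≤ f W) :
    ∑ B ∈ BB, ∑ W ∈ SB QQ R r δ l k S B, f W ≤ 2 * 2 ^ k * ∑ W ∈ S, f W := by
  classical
  have h1 : ∀ B ∈ BB, ∑ W ∈ SB QQ R r δ l k S B, f W =
      ∑ W ∈ S, if Sh QQ R r δ l k (tb R W) B then f W else 0 := by
    intro B _
    unfold SB
    rw [Finset.sum_filter]
  rw [Finset.sum_congr rfl h1, Finset.sum_comm, Finset.mul_sum]
  refine Finset.sum_le_sum fun W _ => ?_
  rw [← Finset.sum_filter, Finset.sum_const, nsmul_eq_mul]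
  refine mul_le_mul_of_nonneg_right ?_ (hf W)
  rcases (BB.filter (fun B => Sh QQ R r δ l k (tb R W) B)).eq_empty_or_nonempty with h | h
  · rw [h, Finset.card_empty, Nat.cast_zero]
    positivity
  · obtain ⟨B, hB⟩ := h
    have h2 := (Finset.mem_filter.1 hB).2
    have h3 : (BB.filter (fun B => Sh QQ R r δ l k (tb R W) B)).card ≤
        nB QQ R r δ l (tb R W) := by
      unfold nB
      refine Finset.card_le_card fun B' hB' => ?_
      obtain ⟨h4, h5⟩ := Finset.mem_filter.1 hB'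
      exact Finset.mem_filter.2 ⟨hBB h4, h5.1, h5.2.1⟩
    have h4 : (BB.filter (fun B => Sh QQ R r δ l k (tb R W) B)).card ≤ 2 ^ (k + 1) :=
      h3.trans h2.2.2.2.le
    have h5 : ((BB.filter (fun B => Sh QQ R r δ l k (tb R W) B)).card : ℝ) ≤
        ((2 ^ (k + 1) : ℕ) : ℝ) := by exact_mod_cast h4
    refine h5.trans (le_of_eq ?_)
    push_cast
    ring

theorem pf_OEN (hSSC : T_SSC) (hGBE : T_GBE) (hAMU : T_AMU) (hPLN : T_PLN) : T_OEN := by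
  intro m L N β Ψ Ξ ψ χ δ ε₀ hm hβ hΨ hΞ hδ hδ4 hε hε2 hL hN
  obtain ⟨Cs, hCs, hs⟩ := hSSC m L β Ψ Ξ ψ χ δ δ hβ hΨ hΞ hδ hδ4 hδ hL
  obtain ⟨Cg, hCg, hg⟩ := hGBE m N β Ψ Ξ ψ χ δ hβ hΨ hΞ hδ hδ4 (by omega)
  obtain ⟨Ca, hCa, ha⟩ := hAMU m L N β δ hβ hδ.le (by omega)
  have hCsx : 0 < Cs ^ xm m := Real.rpow_pos_of_pos (by linarith) _
  set C : ℝ := 2 * Cs + Cg + 2 * (Cs ^ xm m * Cg) with hCdef
  have hCsg : 0 < Cs ^ xm m * Cg := mul_pos hCsx (by linarith)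
  have hC1 : 1 ≤ C := by linarith
  refine ⟨C, hC1, ?_⟩
  intro κ R A H g G S QQ l k X hκ hκ3 hR hCR hCε hA hH hg0 hBd hG hX hS hz
  have hR0 : 0 < R := by linarith
  have hsq0 : 0 < Real.sqrt R := Real.sqrt_pos.2 hR0
  have hRd : 0 < R ^ δ := Real.rpow_pos_of_pos hR0 _
  have hneg : R ^ (-δ) = (R ^ δ)⁻¹ := Real.rpow_neg hR0.le _
  have hneg0 : 0 < R ^ (-δ) := Real.rpow_pos_of_pos hR0 _
  have h8 : Cs * R ^ (-δ) ≤ 1 / 2 := by
    rw [hneg, ← div_eq_mul_inv, div_le_iff₀ hRd]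
    linarith
  have hr1 : Real.sqrt R ≤ R ^ (1 - ε₀) := by
    rw [Real.sqrt_eq_rpow]
    exact Real.rpow_le_rpow_of_exponent_le hR (by linarith)
  have hr2 : R ^ (1 - ε₀) ≤ R / C := by
    rw [le_div_iff₀ (by linarith), Real.rpow_sub hR0, Real.rpow_one]
    have h1 : 0 < R ^ ε₀ := Real.rpow_pos_of_pos hR0 _
    rw [div_mul_eq_mul_div, div_le_iff₀ h1]
    exact mul_le_mul_of_nonneg_left hCε hR0.le
  have hexp := expo (m := m) (ε₀ := ε₀) hm hR hδ hA hCs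
  set r : ℝ := R ^ (1 - ε₀) with hrdef
  have hr0 : 0 < r := by linarith
  have hrs : r ≤ R / Cs :=
    hr2.trans (div_le_div_of_nonneg_left hR0.le (by linarith) (by linarith))
  have hrg : r ≤ R / Cg :=
    hr2.trans (div_le_div_of_nonneg_left hR0.le (by linarith) (by linarith))
  classical
  set BB : Finset (Zi m) := X.image (fun z => bl R r (cb (Real.sqrt R) z)) with hBBdef
  have hBB : BB ⊆ QQ.image (bl R r) := by
    intro B hB
    obtain ⟨z, hzX, rfl⟩ := Finset.mem_image.1 hB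
    exact Finset.mem_image_of_mem _ (hz z hzX).1
  set A' : ℝ := Cs * R ^ δ * A * (R / r) ^ ((m : ℝ) / 2) with hA'
  have hA'0 : 0 < A' := by positivity
  set f : Pk m → ℝ := fun W => al N β R δ G W ^ 2 * R ^ (((m : ℝ) + 2) / 2) with hf
  have hf0 : ∀ W, 0 ≤ f W := fun W => by positivity
  -- one ball
  have hone : ∀ B ∈ BB, ((X.filter (fun z => bl R r (cb (Real.sqrt R) z) = B)).card : ℝ) *
      H ^ (2 + xm m) ≤ (g * A' ^ xm m * r ^ (1 / 3 : ℝ) * (Cg * R ^ (lo m * δ) * (r / R))) *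
        ∑ W ∈ SB QQ R r δ l k S B, f W := by
    intro B _
    obtain ⟨G', hG', hTF⟩ := hs κ R r A G (SB QQ R r δ l k S B) (r • zc B) hκ hκ3 hR
      (by linarith) hr1 hrs hA hG
    have hG'2 : Cls L (κ + C * R ^ (-δ)) r A' G' := by
      refine cls_mono ?_ (by linarith) hr0.le hG'
      have : Cs * R ^ (-δ) ≤ C * R ^ (-δ) := mul_le_mul_of_nonneg_right (by linarith) hneg0.le
      linarith
    have h1 := hBd A' H G' (X.filter (fun z => bl R r (cb (Real.sqrt R) z) = B)) hA'0 hH hG'2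
      (fun z hz z' hz' => hX z (Finset.mem_filter.1 hz).1 z' (Finset.mem_filter.1 hz').1) ?_
    · refine h1.trans ?_
      have h2 : ∫ ζ, ‖G' ζ‖ ^ 2 ≤ (Cg * R ^ (lo m * δ) * (r / R)) *
          ∑ W ∈ SB QQ R r δ l k S B, f W := by
        have h3 := (hPLN m G' hG'.1).1
        have h4 : ∫⁻ z, ‖TF G' z‖ₑ ^ 2 = ∫⁻ z, ‖(χ (r⁻¹ • (z - r • zc B)) : ℂ) *
            ∑ W ∈ SB QQ R r δ l k S B, Fp β ψ R δ G W z‖ₑ ^ 2 := by
          refine lintegral_congr fun z => ?_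
          rw [hTF z]
        have h5 := hg κ R r G (SB QQ R r δ l k S B) (r • zc B) hκ hκ3 hR (by linarith) hr1 hrg
          hG.1 hG.2.1 (fun W hW => hS W (by
            unfold SB at hW
            exact (Finset.mem_filter.1 hW).1))
        have h6 : ∑ W ∈ SB QQ R r δ l k S B, al2 N β R δ G W *
            ENNReal.ofReal (R ^ (((m : ℝ) + 2) / 2)) =
            ENNReal.ofReal (∑ W ∈ SB QQ R r δ l k S B, f W) := by
          rw [ENNReal.ofReal_sum_of_nonneg fun W _ => hf0 W]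
          refine Finset.sum_congr rfl fun W _ => ?_
          rw [(ha κ R A G W hκ (by linarith) hR hA hG).2,
            ← ENNReal.ofReal_mul (sq_nonneg _)]
        rw [← h4, h3, h6, ← ENNReal.ofReal_mul (by positivity)] at h5
        refine (ENNReal.ofReal_le_ofReal_iff ?_).1 h5
        have h7 : 0 ≤ ∑ W ∈ SB QQ R r δ l k S B, f W := Finset.sum_nonneg fun W _ => hf0 W
        positivity
      have h8 : 0 ≤ g * A' ^ xm m * r ^ (1 / 3 : ℝ) := by positivity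
      refine (mul_le_mul_of_nonneg_left h2 h8).trans (le_of_eq ?_)
      ring
    · intro z hzf
      obtain ⟨hzX, hzB⟩ := Finset.mem_filter.1 hzf
      obtain ⟨-, h2⟩ := hz z hzX
      rw [hzB] at h2
      rw [hTF z, norm_mul]
      have h3 : 1 ≤ χ (r⁻¹ • (z - r • zc B)) := by
        refine hΞ.2.2.2.2 _ ?_
        rw [norm_smul, norm_inv, Real.norm_eq_abs, abs_of_pos hr0, ← div_eq_inv_mul,
          div_le_iff₀ hr0]
        have h4 := cb_dist hsq0 z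
        have h5 := cb_dist hr0 (Real.sqrt R • zc (cb (Real.sqrt R) z) : Z m)
        have h6 : cb r (Real.sqrt R • zc (cb (Real.sqrt R) z) : Z m) = B := hzB
        rw [h6] at h5
        have h7 : z - r • zc B = (z - Real.sqrt R • zc (cb (Real.sqrt R) z)) +
            (Real.sqrt R • zc (cb (Real.sqrt R) z) - r • zc B) := by abel
        rw [h7]
        have hm0 : (0 : ℝ) ≤ m := Nat.cast_nonneg m
        have h9 : ((m : ℝ) + 1) * Real.sqrt R ≤ ((m : ℝ) + 1) * r :=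
          mul_le_mul_of_nonneg_left hr1 (by linarith)
        have h10 : (2 * (m : ℝ) + 4) * r = ((m : ℝ) + 1) * r + ((m : ℝ) + 1) * r + 2 * r := by
          ring
        rw [h10]
        refine (norm_add_le _ _).trans ?_
        linarith
      have h11 : ‖(χ (r⁻¹ • (z - r • zc B)) : ℂ)‖ = χ (r⁻¹ • (z - r • zc B)) := by
        rw [Complex.norm_real, Real.norm_eq_abs, abs_of_nonneg (by linarith)]
      rw [h11]
      have h12 := mul_le_mul_of_nonneg_right h3 (norm_nonneg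
        (∑ W ∈ SB QQ R r δ l k S B, Fp β ψ R δ G W z))
      rw [one_mul] at h12
      exact h2.trans h12
  -- sum over the balls
  have hcard : (X.card : ℝ) = ∑ B ∈ BB,
      ((X.filter (fun z => bl R r (cb (Real.sqrt R) z) = B)).card : ℝ) := by
    rw [Finset.card_eq_sum_card_fiberwise (t := BB)
      (f := fun z => bl R r (cb (Real.sqrt R) z)) (fun z hz => Finset.mem_image_of_mem _ hz)]
    push_cast
    rfl
  have hcnt := count (δ := δ) S QQ BB l k hBB f hf0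
  have hpre : 0 ≤ g * A' ^ xm m * r ^ (1 / 3 : ℝ) * (Cg * R ^ (lo m * δ) * (r / R)) := by
    positivity
  have hsum0 : 0 ≤ ∑ W ∈ S, f W := Finset.sum_nonneg fun W _ => hf0 W
  calc (X.card : ℝ) * H ^ (2 + xm m) = ∑ B ∈ BB,
      ((X.filter (fun z => bl R r (cb (Real.sqrt R) z) = B)).card : ℝ) * H ^ (2 + xm m) := by
        rw [hcard, Finset.sum_mul]
    _ ≤ ∑ B ∈ BB, (g * A' ^ xm m * r ^ (1 / 3 : ℝ) * (Cg * R ^ (lo m * δ) * (r / R))) *
        ∑ W ∈ SB QQ R r δ l k S B, f W := Finset.sum_le_sum hone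
    _ = (g * A' ^ xm m * r ^ (1 / 3 : ℝ) * (Cg * R ^ (lo m * δ) * (r / R))) *
        ∑ B ∈ BB, ∑ W ∈ SB QQ R r δ l k S B, f W := by rw [Finset.mul_sum]
    _ ≤ (g * A' ^ xm m * r ^ (1 / 3 : ℝ) * (Cg * R ^ (lo m * δ) * (r / R))) *
        (2 * 2 ^ k * ∑ W ∈ S, f W) := mul_le_mul_of_nonneg_left hcnt hpre
    _ = (A' ^ xm m * r ^ (1 / 3 : ℝ) * (R ^ (lo m * δ) * (r / R))) *
        (2 * g * Cg * 2 ^ k * ∑ W ∈ S, f W) := by ring
    _ ≤ (Cs ^ xm m * R ^ (2 * lo m * δ) * A ^ xm m * R ^ (1 / 3 : ℝ)) *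
        (2 * g * Cg * 2 ^ k * ∑ W ∈ S, f W) := by
        refine mul_le_mul_of_nonneg_right hexp ?_
        have : 0 ≤ Cg := by linarith
        positivity
    _ = (2 * (Cs ^ xm m * Cg)) * (R ^ (2 * lo m * δ) * 2 ^ k * g * A ^ xm m *
        R ^ (1 / 3 : ℝ) * ∑ W ∈ S, f W) := by ring
    _ ≤ C * (R ^ (2 * lo m * δ) * 2 ^ k * g * A ^ xm m *
        R ^ (1 / 3 : ℝ) * ∑ W ∈ S, f W) := by
        refine mul_le_mul_of_nonneg_right (by linarith) ?_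
        positivity
    _ = C * R ^ (2 * lo m * δ) * 2 ^ k * g * A ^ xm m * R ^ (1 / 3 : ℝ) * ∑ W ∈ S, f W := by
        ring

end Pool.Agent.H26.G.OEN
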