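import Pool.Agent.H83.G.Targets3
import Pool.Agent.H61.G.Basic

/-!
Theorem G (MP_ee74d2_an), row RDT: refined decoupling, all scales, narrow in `a`.
-/

set_option autoImplicit false

namespace Pool.Agent.H26.G.RDT

open MeasureTheory Set Pool.Agent.H83.G Pool.Agent.H61.G
open scoped ENNReal NNReal RealInnerProductSpace

variable {m : ℕ}

/-- the parent of a cap -/
private noncomputable def up (K : ℝ) (t : Fin m → ℤ) : Fin m → ℤ := fun i => ⌊(t i : ℝ) / K⌋

/-- the ancestors of a cap -/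
private noncomputable def hh (K : ℝ) : ℕ → (Fin m → ℤ) → (Fin m → ℤ)
  | 0, k => k
  | i + 1, k => up K (hh K i k)

private theorem fl_dist {ρ : ℝ} (hρ : 0 < ρ) (x : ℝ) : |x - ρ * (⌊x / ρ⌋ : ℝ)| ≤ ρ := by
  have h1 := Int.floor_le (x / ρ)
  have h2 := (Int.lt_floor_add_one (x / ρ)).le
  have e1 : x = ρ * (x / ρ) := by field_simp
  have h3 : ρ * (⌊x / ρ⌋ : ℝ) ≤ ρ * (x / ρ) := mul_le_mul_of_nonneg_left h1 hρ.le
  have h4 : ρ * (x / ρ) ≤ ρ * ((⌊x / ρ⌋ : ℝ) + 1) := mul_le_mul_of_nonneg_left h2 hρ.le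
  rw [abs_le]
  constructor <;> linarith

private theorem up_dist {K s : ℝ} (hK : 1 ≤ K) (hs : 0 < s) (t : Fin m → ℤ) :
    ‖ctr s t - ctr (K * s) (up K t)‖ ≤ K * s := by
  have hK0 : 0 < K := by linarith
  have hm : (0 : ℝ) ≤ m := Nat.cast_nonneg m
  have e1 : ctr s t - ctr (K * s) (up K t) = (s / ((m : ℝ) + 1)) •
      (WithLp.toLp 2 (fun i => (t i : ℝ) - K * (⌊(t i : ℝ) / K⌋ : ℝ)) : E m) := by
    ext i
    simp only [ctr, up, PiLp.sub_apply, PiLp.smul_apply, smul_eq_mul]
    ring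
  rw [e1, norm_smul, Real.norm_eq_abs, abs_of_pos (by positivity)]
  have h2 : ‖(WithLp.toLp 2 (fun i => (t i : ℝ) - K * (⌊(t i : ℝ) / K⌋ : ℝ)) : E m)‖ ≤
      ((m : ℝ) + 1) * K := by
    rw [EuclideanSpace.norm_eq]
    refine Real.sqrt_le_iff.2 ⟨by positivity, ?_⟩
    calc ∑ i : Fin m, ‖(WithLp.toLp 2 (fun i => (t i : ℝ) - K * (⌊(t i : ℝ) / K⌋ : ℝ)) :
        E m) i‖ ^ 2 ≤ ∑ _i : Fin m, K ^ 2 := Finset.sum_le_sum fun i _ =>
          pow_le_pow_left₀ (norm_nonneg _) (fl_dist hK0 _) 2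
      _ = (m : ℝ) * K ^ 2 := by simp
      _ ≤ (((m : ℝ) + 1) * K) ^ 2 := by
        rw [mul_pow]
        refine mul_le_mul_of_nonneg_right ?_ (sq_nonneg K)
        linarith [sq_nonneg (m : ℝ), show ((m : ℝ) + 1) ^ 2 = (m : ℝ) ^ 2 + 2 * m + 1 by ring]
  refine (mul_le_mul_of_nonneg_left h2 (by positivity)).trans (le_of_eq ?_)
  field_simp

private theorem hh_dist {K s : ℝ} (hK : 1 ≤ K) (hs : 0 < s) (k : Fin m → ℤ) (i : ℕ) :
    ‖ctr s k - ctr (K ^ i * s) (hh K i k)‖ ≤ i * (K ^ i * s) := by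
  have hK0 : 0 < K := by linarith
  induction i with
  | zero =>
    simp [hh]
  | succ i ih =>
    have h1 := up_dist hK (show 0 < K ^ i * s by positivity) (hh K i k)
    have e1 : K * (K ^ i * s) = K ^ (i + 1) * s := by ring
    rw [e1] at h1
    have h2 : K ^ i * s ≤ K ^ (i + 1) * s := by
      refine mul_le_mul_of_nonneg_right ?_ hs.le
      exact pow_le_pow_right₀ hK (Nat.le_succ i)
    have h3 : (i : ℝ) * (K ^ i * s) ≤ i * (K ^ (i + 1) * s) :=
      mul_le_mul_of_nonneg_left h2 (Nat.cast_nonneg i)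
    have h4 : ctr s k - ctr (K ^ (i + 1) * s) (hh K (i + 1) k) =
        (ctr s k - ctr (K ^ i * s) (hh K i k)) +
          (ctr (K ^ i * s) (hh K i k) - ctr (K ^ (i + 1) * s) (up K (hh K i k))) := by
      rw [sub_add_sub_cancel]
      rfl
    rw [h4]
    refine (norm_add_le _ _).trans ?_
    push_cast
    have h5 : ((i : ℝ) + 1) * (K ^ (i + 1) * s) = i * (K ^ (i + 1) * s) + K ^ (i + 1) * s := by
      ring
    rw [h5]
    linarith

private theorem slow_up (hLOB : T_LOB) {C₁ : ℝ} (hC₁ : 0 ≤ C₁) {N₁ J : ℕ} {η η' : E m}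
    {s s' ρ : ℝ} (hs' : 0 < s') (hss : s' ≤ s) (hη : ‖η' - η‖ ≤ J * s) (hρ : 0 < ρ)
    {M : Z m → ℝ≥0∞} (hM : Slow C₁ N₁ η' s' ρ M) :
    Slow (C₁ * ((1 + (J : ℝ)) ^ 2) ^ N₁) N₁ η s ρ M := by
  intro z z'
  refine (hM z z').trans (mul_le_mul' (ENNReal.ofReal_le_ofReal ?_) le_rfl)
  have h1 := (hLOB m J (Nat.cast_nonneg J)).2.2.1 η η' s s' (z - z') hs' hss hη
  rw [mul_assoc, ← mul_pow]
  refine mul_le_mul_of_nonneg_left (pow_le_pow_left₀ (by positivity) ?_ N₁) hC₁
  rw [norm_smul, norm_smul, norm_inv, Real.norm_eq_abs, abs_of_pos hρ]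
  have hJ : (0 : ℝ) ≤ J := Nat.cast_nonneg J
  have h2 : (1 : ℝ) ≤ (1 + (J : ℝ)) ^ 2 := one_le_pow₀ (by linarith)
  have h3 := mul_le_mul_of_nonneg_left h1 (inv_nonneg.2 hρ.le)
  have h4 : (1 + (J : ℝ)) ^ 2 * (1 + ρ⁻¹ * ‖Lo η s (z - z')‖) =
      (1 + (J : ℝ)) ^ 2 + ρ⁻¹ * ((1 + (J : ℝ)) ^ 2 * ‖Lo η s (z - z')‖) := by ring
  rw [h4]
  linarith

private theorem slow_sum {C₁ : ℝ} {N₁ : ℕ} {η : E m} {s ρ : ℝ} {ι : Type} (I : Finset ι)
    {M : ι → Z m → ℝ≥0∞} (hM : ∀ k ∈ I, Slow C₁ N₁ η s ρ (M k)) :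
    Slow C₁ N₁ η s ρ (fun z => ∑ k ∈ I, M k z) := by
  intro z z'
  simp only
  rw [Finset.mul_sum]
  exact Finset.sum_le_sum fun k hk => hM k hk z z'

theorem pf_RDT (hRDS : T_RDS) (hLOB : T_LOB) (hPUS : T_PUS) (hSCH : T_SCH) : T_RDT := by
  intro m N₁ J P ε D C₁ hm hP hmP hε hD hC₁ hJ
  obtain ⟨-, -, Cp, hCp, -, h5, h6⟩ := hPUS m
  set D' : ℝ := D + J + Cp * 2 ^ m with hD'def
  have hJ0 : (0 : ℝ) ≤ J := Nat.cast_nonneg J
  have hCp2 : 0 < Cp * 2 ^ m := by positivity
  have hD' : 1 ≤ D' := by linarith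
  obtain ⟨C, hC, hstep⟩ := hRDS m N₁ P ε D' (C₁ * ((1 + (J : ℝ)) ^ 2) ^ N₁) hm hP hmP hε hD'
    (by positivity)
  set B : ℝ := Cp * (1 + (Cp + J) / 1) ^ m with hBdef
  have hB0 : 0 < B := by positivity
  refine ⟨B ^ (P - 1) * C ^ J, by positivity, ?_⟩
  intro R a₀ I G M hR ha1 ha2 hI hG hsup hMM
  have hR0 : 0 < R := by linarith
  have hJp : (0 : ℝ) < J := by
    have : 0 < J := hJ
    exact_mod_cast this
  set K : ℝ := R ^ (1 / (2 * (J : ℝ))) with hKdef
  have hK1 : 1 ≤ K := Real.one_le_rpow hR (by positivity)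
  have hK0 : 0 < K := by linarith
  have hK2 : R ^ (1 / (J : ℝ)) = K ^ 2 := by
    rw [hKdef, ← Real.rpow_natCast, ← Real.rpow_mul hR0.le]
    congr 1
    push_cast
    field_simp
  have hK2' : R ^ (-(1 / (J : ℝ))) = K⁻¹ ^ 2 := by
    rw [Real.rpow_neg hR0.le, hK2, inv_pow]
  have hKJ : K ^ J * sR R = 1 := by
    have h1 : K ^ J = Real.sqrt R := by
      rw [hKdef, ← Real.rpow_natCast, ← Real.rpow_mul hR0.le, Real.sqrt_eq_rpow]
      congr 1
      field_simp
    rw [h1]
    unfold sR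
    exact mul_inv_cancel₀ (Real.sqrt_pos.2 hR0).ne'
  have hs0 := sR_pos hR
  have hs1 : sR R ≤ 1 := by
    have := one_le_pow₀ (n := J) hK1
    have h2 := mul_le_mul_of_nonneg_right this hs0.le
    rw [hKJ, one_mul] at h2
    exact h2
  rw [hK2] at hMM
  rw [hK2'] at hsup
  classical
  -- all scales
  have key : ∀ i : ℕ, i ≤ J → ∀ κ : Fin m → ℤ,
      ∫⁻ z, ‖∑ k ∈ I.filter (fun k => hh K i k = κ), TF (G k) z‖ₑ ^ P *
        (∑ k ∈ I.filter (fun k => hh K i k = κ), M k z) ^ (1 - P / 2) ≤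
      ENNReal.ofReal (C * K ^ ε) ^ i * ∑ k ∈ I.filter (fun k => hh K i k = κ),
        ∫⁻ z, ‖TF (G k) z‖ₑ ^ P * M k z ^ (1 - P / 2) := by
    intro i
    induction i with
    | zero =>
      intro _ κ
      rw [pow_zero, one_mul]
      by_cases hκ : κ ∈ I
      · have e1 : I.filter (fun k => hh K 0 k = κ) = {κ} := by
          ext k
          simp only [hh, Finset.mem_filter, Finset.mem_singleton]
          constructor
          · rintro ⟨-, h⟩
            exact h
          · rintro rfl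
            exact ⟨hκ, rfl⟩
        rw [e1]
        simp only [Finset.sum_singleton]
        exact le_rfl
      · have e1 : I.filter (fun k => hh K 0 k = κ) = ∅ := by
          ext k
          simp only [hh, Finset.mem_filter, Finset.notMem_empty, iff_false, not_and]
          rintro hk rfl
          exact hκ hk
        rw [e1]
        simp only [Finset.sum_empty, enorm_zero]
        rw [ENNReal.zero_rpow_of_pos (by linarith)]
        simp
    | succ i ih =>
      intro hi κ
      have hiJ : (i : ℝ) + 1 ≤ J := by exact_mod_cast hi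
      have hsi : 0 < K ^ (i + 1) * sR R := by positivity
      have hsi0 : 0 < K ^ i * sR R := by positivity
      have eK : K ^ (i + 1) * sR R * K⁻¹ = K ^ i * sR R := by
        rw [pow_succ]
        field_simp
      set T : Finset (Fin m → ℤ) :=
        (I.filter (fun k => hh K (i + 1) k = κ)).image (hh K i) with hT
      have hTup : ∀ t ∈ T, up K t = κ := by
        intro t ht
        obtain ⟨k, hk, rfl⟩ := Finset.mem_image.1 ht
        exact (Finset.mem_filter.1 hk).2
      have hfib : ∀ t ∈ T, (I.filter (fun k => hh K (i + 1) k = κ)).filter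
          (fun k => hh K i k = t) = I.filter (fun k => hh K i k = t) := by
        intro t ht
        ext k
        simp only [Finset.mem_filter]
        constructor
        · rintro ⟨⟨h1, -⟩, h2⟩
          exact ⟨h1, h2⟩
        · rintro ⟨h1, h2⟩
          refine ⟨⟨h1, ?_⟩, h2⟩
          change up K (hh K i k) = κ
          rw [h2]
          exact hTup t ht
      have hsumT : ∀ {A : Type} [AddCommMonoid A] (f : (Fin m → ℤ) → A),
          ∑ t ∈ T, ∑ k ∈ I.filter (fun k => hh K i k = t), f k =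
          ∑ k ∈ I.filter (fun k => hh K (i + 1) k = κ), f k := by
        intro A _ f
        rw [← Finset.sum_fiberwise_of_maps_to (t := T) (g := hh K i)
          (fun k hk => Finset.mem_image_of_mem _ hk)]
        refine Finset.sum_congr rfl fun t ht => ?_
        rw [hfib t ht]
      have hst := hstep K a₀ (K ^ (i + 1) * sR R) (ctr (K ^ (i + 1) * sR R) κ) (Fin m → ℤ) T
        (fun t => ctr (K ^ i * sR R) t)
        (fun t ζ => ∑ k ∈ I.filter (fun k => hh K i k = t), G k ζ)
        (fun t z => ∑ k ∈ I.filter (fun k => hh K i k = t), M k z)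
        hK1 ha1 ha2 hsi ?_ ?_ ?_ ?_ ?_
      · have e2 : ∀ z, ∑ t ∈ T, TF (fun ζ => ∑ k ∈ I.filter (fun k => hh K i k = t), G k ζ) z =
            ∑ k ∈ I.filter (fun k => hh K (i + 1) k = κ), TF (G k) z := by
          intro z
          rw [← hsumT]
          refine Finset.sum_congr rfl fun t _ => ?_
          rw [TF_sum fun k hk => hG k (Finset.mem_filter.1 hk).1]
        have e3 : ∀ z, ∑ t ∈ T, ∑ k ∈ I.filter (fun k => hh K i k = t), M k z =
            ∑ k ∈ I.filter (fun k => hh K (i + 1) k = κ), M k z := fun z => hsumT _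
        simp only [e2, e3] at hst
        refine hst.trans ?_
        rw [pow_succ', mul_assoc]
        refine mul_le_mul' le_rfl ?_
        rw [← hsumT, Finset.mul_sum]
        refine Finset.sum_le_sum fun t _ => ?_
        have h7 := ih (by omega) t
        refine le_trans (le_of_eq ?_) h7
        refine lintegral_congr fun z => ?_
        rw [TF_sum fun k hk => hG k (Finset.mem_filter.1 hk).1]
      · intro t ht
        have h8 := up_dist hK1 hsi0 t
        rw [hTup t ht] at h8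
        have e4 : K * (K ^ i * sR R) = K ^ (i + 1) * sR R := by ring
        rw [e4] at h8
        have h9 := mul_le_mul_of_nonneg_right hD' hsi.le
        rw [one_mul] at h9
        exact h8.trans h9
      · intro y J' _ hJ'
        rw [eK] at hJ'
        have h8 := h5 (K ^ i * sR R) (K ^ i * sR R) y J' hsi0 hsi0.le
          (fun k hk => by rw [norm_sub_rev]; exact hJ' k hk)
        rw [div_self hsi0.ne'] at h8
        have e5 : (1 : ℝ) + 1 = 2 := by norm_num
        rw [e5] at h8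
        linarith
      · intro t _
        exact tc_sum fun k hk => hG k (Finset.mem_filter.1 hk).1
      · intro t _ ζ hζ
        obtain ⟨k, hk, hkζ⟩ := Finset.exists_ne_zero_of_sum_ne_zero hζ
        obtain ⟨hkI, hkt⟩ := Finset.mem_filter.1 hk
        obtain ⟨g1, g2, g3, g4, g5⟩ := hsup k hkI ζ hkζ
        have hKi : 1 ≤ K ^ i := one_le_pow₀ hK1
        have hsle : sR R ≤ K ^ i * sR R := by
          have := mul_le_mul_of_nonneg_right hKi hs0.le
          rw [one_mul] at this
          exact this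
        have hDD : D ≤ D' := by linarith
        rw [eK]
        refine ⟨g1.trans (mul_le_mul_of_nonneg_right hDD (by positivity)), g2, g3, ?_, ?_⟩
        · have h8 := hh_dist hK1 hs0 k i
          rw [hkt] at h8
          have h9 : ζ.1⁻¹ • ζ.2.1 - ctr (K ^ i * sR R) t = (ζ.1⁻¹ • ζ.2.1 - ctr (sR R) k) +
              (ctr (sR R) k - ctr (K ^ i * sR R) t) := by
            rw [sub_add_sub_cancel]
          rw [h9]
          refine (norm_add_le _ _).trans ?_
          have h10 : D * sR R ≤ D * (K ^ i * sR R) :=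
            mul_le_mul_of_nonneg_left hsle (by linarith)
          have h11 : (i : ℝ) * (K ^ i * sR R) ≤ J * (K ^ i * sR R) :=
            mul_le_mul_of_nonneg_right (by linarith) hsi0.le
          have h12 : (D + J) * (K ^ i * sR R) ≤ D' * (K ^ i * sR R) :=
            mul_le_mul_of_nonneg_right (by linarith) hsi0.le
          have h13 : (D + J) * (K ^ i * sR R) = D * (K ^ i * sR R) + J * (K ^ i * sR R) := by
            ring
          linarith
        · refine g5.trans ?_
          have h10 : sR R ^ 2 ≤ (K ^ i * sR R) ^ 2 := pow_le_pow_left₀ hs0.le hsle 2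
          exact mul_le_mul hDD h10 (by positivity) (by linarith)
      · intro t ht
        obtain ⟨k₀, hk₀, hk₀t⟩ := Finset.mem_image.1 ht
        have hmem : k₀ ∈ I.filter (fun k => hh K i k = t) :=
          Finset.mem_filter.2 ⟨(Finset.mem_filter.1 hk₀).1, hk₀t⟩
        refine ⟨?_, ?_, ?_⟩
        · exact Finset.measurable_fun_sum _ fun k hk => (hMM k (Finset.mem_filter.1 hk).1).1
        · refine slow_sum _ fun k hk => ?_
          obtain ⟨hkI, hkt⟩ := Finset.mem_filter.1 hk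
          have hdist := hh_dist hK1 hs0 k (i + 1)
          have hup : hh K (i + 1) k = κ := by
            change up K (hh K i k) = κ
            rw [hkt]
            exact hTup t ht
          rw [hup] at hdist
          refine slow_up hLOB hC₁ hs0 ?_ ?_ (by positivity) (hMM k hkI).2.1
          · have := mul_le_mul_of_nonneg_right (one_le_pow₀ (n := i + 1) hK1) hs0.le
            rw [one_mul] at this
            exact this
          · refine hdist.trans (mul_le_mul_of_nonneg_right ?_ hsi.le)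
            push_cast
            exact hiJ
        · intro z
          constructor
          · intro h0
            have := (Finset.sum_eq_zero_iff.1 h0) k₀ hmem
            exact ((hMM k₀ (Finset.mem_filter.1 hmem).1).2.2 z).1 this
          · exact ENNReal.sum_ne_top.2 fun k hk => ((hMM k (Finset.mem_filter.1 hk).1).2.2 z).2
  -- the top
  set T : Finset (Fin m → ℤ) := I.image (hh K J) with hT
  have hsumT : ∀ {A : Type} [AddCommMonoid A] (f : (Fin m → ℤ) → A),
      ∑ t ∈ T, ∑ k ∈ I.filter (fun k => hh K J k = t), f k = ∑ k ∈ I, f k := by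
    intro A _ f
    rw [← Finset.sum_fiberwise_of_maps_to (t := T) (g := hh K J)
      (fun k hk => Finset.mem_image_of_mem _ hk)]
  have hcard : (T.card : ℝ) ≤ B := by
    refine h5 1 (Cp + J) 0 T one_pos (by positivity) ?_
    intro t ht
    obtain ⟨k, hk, rfl⟩ := Finset.mem_image.1 ht
    have h8 := hh_dist hK1 hs0 k J
    rw [hKJ, mul_one] at h8
    have h9 := h6 (sR R) k hs0 hs1 (hI hk)
    have h10 : ctr 1 (hh K J k) - 0 = ctr (sR R) k - (ctr (sR R) k - ctr 1 (hh K J k)) := by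
      abel
    rw [h10]
    refine (norm_sub_le _ _).trans ?_
    linarith
  have hTF : ∀ k ∈ I, Measurable (TF (G k)) := fun k hk => (hSCH m (G k) (hG k hk)).1.measurable
  have hpt : ∀ z, ‖∑ k ∈ I, TF (G k) z‖ₑ ^ P * (∑ k ∈ I, M k z) ^ (1 - P / 2) ≤
      ENNReal.ofReal (B ^ (P - 1)) * ∑ t ∈ T,
        ‖∑ k ∈ I.filter (fun k => hh K J k = t), TF (G k) z‖ₑ ^ P *
          (∑ k ∈ I.filter (fun k => hh K J k = t), M k z) ^ (1 - P / 2) := by
    intro z
    have e1 : ‖∑ k ∈ I, TF (G k) z‖ₑ ≤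
        ∑ t ∈ T, ‖∑ k ∈ I.filter (fun k => hh K J k = t), TF (G k) z‖ₑ := by
      rw [← hsumT]
      exact enorm_sum_le _ _
    have e2 := ENNReal.rpow_le_rpow e1 (show 0 ≤ P by linarith)
    have e3 := ENNReal.rpow_sum_le_const_mul_sum_rpow T
      (fun t => ‖∑ k ∈ I.filter (fun k => hh K J k = t), TF (G k) z‖ₑ)
      (p := P) (by linarith)
    have e4 : (T.card : ℝ≥0∞) ^ (P - 1) ≤ ENNReal.ofReal (B ^ (P - 1)) := by
      rw [← ENNReal.ofReal_rpow_of_pos hB0]
      refine ENNReal.rpow_le_rpow ?_ (by linarith)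
      rw [← ENNReal.ofReal_natCast]
      exact ENNReal.ofReal_le_ofReal hcard
    have e5 := e2.trans (e3.trans (mul_le_mul' e4 le_rfl))
    refine (mul_le_mul' e5 le_rfl).trans ?_
    rw [mul_assoc]
    refine mul_le_mul' le_rfl ?_
    rw [Finset.sum_mul]
    refine Finset.sum_le_sum fun t _ => mul_le_mul' le_rfl ?_
    have e6 : 1 - P / 2 = -(P / 2 - 1) := by ring
    rw [e6, ENNReal.rpow_neg, ENNReal.rpow_neg, ENNReal.inv_le_inv]
    refine ENNReal.rpow_le_rpow ?_ (by linarith)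
    exact Finset.sum_le_sum_of_subset (Finset.filter_subset _ _)
  have hmeasT : ∀ t ∈ T, Measurable (fun z =>
      ‖∑ k ∈ I.filter (fun k => hh K J k = t), TF (G k) z‖ₑ ^ P *
        (∑ k ∈ I.filter (fun k => hh K J k = t), M k z) ^ (1 - P / 2)) := by
    intro t _
    refine Measurable.mul ?_ ?_
    · refine Measurable.pow_const ?_ _
      refine Measurable.enorm ?_
      exact Finset.measurable_fun_sum _ fun k hk => hTF k (Finset.mem_filter.1 hk).1
    · refine Measurable.pow_const ?_ _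
      exact Finset.measurable_fun_sum _ fun k hk => (hMM k (Finset.mem_filter.1 hk).1).1
  calc ∫⁻ z, ‖∑ k ∈ I, TF (G k) z‖ₑ ^ P * (∑ k ∈ I, M k z) ^ (1 - P / 2) ≤
      ∫⁻ z, ENNReal.ofReal (B ^ (P - 1)) * ∑ t ∈ T,
        ‖∑ k ∈ I.filter (fun k => hh K J k = t), TF (G k) z‖ₑ ^ P *
          (∑ k ∈ I.filter (fun k => hh K J k = t), M k z) ^ (1 - P / 2) :=
        lintegral_mono hpt
    _ = ENNReal.ofReal (B ^ (P - 1)) * ∑ t ∈ T, ∫⁻ z,
        ‖∑ k ∈ I.filter (fun k => hh K J k = t), TF (G k) z‖ₑ ^ P *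
          (∑ k ∈ I.filter (fun k => hh K J k = t), M k z) ^ (1 - P / 2) := by
        rw [lintegral_const_mul' _ _ ENNReal.ofReal_ne_top, lintegral_finsetSum _ hmeasT]
    _ ≤ ENNReal.ofReal (B ^ (P - 1)) * ∑ t ∈ T, (ENNReal.ofReal (C * K ^ ε) ^ J *
        ∑ k ∈ I.filter (fun k => hh K J k = t),
          ∫⁻ z, ‖TF (G k) z‖ₑ ^ P * M k z ^ (1 - P / 2)) :=
        mul_le_mul' le_rfl (Finset.sum_le_sum fun t _ => key J le_rfl t)
    _ = ENNReal.ofReal (B ^ (P - 1)) * ENNReal.ofReal (C * K ^ ε) ^ J *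
        ∑ k ∈ I, ∫⁻ z, ‖TF (G k) z‖ₑ ^ P * M k z ^ (1 - P / 2) := by
        rw [← Finset.mul_sum, hsumT, mul_assoc]
    _ ≤ ENNReal.ofReal (B ^ (P - 1) * C ^ J * R ^ ε) *
        ∑ k ∈ I, ∫⁻ z, ‖TF (G k) z‖ₑ ^ P * M k z ^ (1 - P / 2) := by
        refine mul_le_mul' ?_ le_rfl
        rw [← ENNReal.ofReal_pow (by positivity), ← ENNReal.ofReal_mul (by positivity)]
        refine ENNReal.ofReal_le_ofReal ?_
        rw [mul_pow, mul_assoc]
        refine mul_le_mul_of_nonneg_left (mul_le_mul_of_nonneg_left ?_ (by positivity))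
          (by positivity)
        rw [hKdef, ← Real.rpow_mul hR0.le, ← Real.rpow_natCast, ← Real.rpow_mul hR0.le]
        refine Real.rpow_le_rpow_of_exponent_le hR ?_
        have e6 : 1 / (2 * (J : ℝ)) * ε * J = ε / 2 := by field_simp
        rw [e6]
        linarith

end Pool.Agent.H26.G.RDT
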