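import Pool.Agent.H61.G.Basic

/-!
Theorem G (MP_ee74d2_an), row SSC: stability of the class under localized sub-sums.
-/

set_option autoImplicit false

namespace Pool.Agent.H26.G.SSC

open MeasureTheory Set Pool.Agent.H83.G Pool.Agent.H61.G
open scoped ENNReal NNReal RealInnerProductSpace

variable {m : ℕ}

private theorem rg_mono {κ κ' c : ℝ} (hκ : κ ≤ κ') (hκ1 : κ ≤ 1) (hc : 0 ≤ c) {ζ : Z m}
    (h : ζ ∈ Rg m κ c) : ζ ∈ Rg m κ' c := by
  obtain ⟨h1, h2, h3, h4⟩ := h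
  have h0 : 0 ≤ ζ.1 := by linarith
  refine ⟨by linarith, by linarith, h3.trans ?_, h4.trans ?_⟩
  · exact mul_le_mul_of_nonneg_right (by linarith) h0
  · exact mul_le_mul_of_nonneg_right (by linarith) hc

private theorem arith {R r s r' A C Ca Q t : ℝ} (hr : 0 < r) (hr' : 0 < r')
    (hR : 0 < R) (hC : Ca * t ≤ C ^ 2 * Q ^ 2) (ht : 0 ≤ (r' / s) ^ (m + 2)) :
    Ca * t * (A ^ 2 * (R * s ^ 2 / r') ^ m * (r' / s) ^ (m + 2)) ≤
      (C * Q * A * (R / r) ^ ((m : ℝ) / 2)) ^ 2 * (r * s ^ 2 / r') ^ m * (r' / s) ^ (m + 2) := by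
  have e1 : ((R / r) ^ ((m : ℝ) / 2)) ^ 2 = (R / r) ^ m := by
    rw [← Real.rpow_natCast, ← Real.rpow_mul (by positivity)]
    rw [← Real.rpow_natCast]
    congr 1
    push_cast
    ring
  have e2 : (R * s ^ 2 / r') ^ m = (R / r) ^ m * (r * s ^ 2 / r') ^ m := by
    rw [← mul_pow]
    congr 1
    field_simp
  rw [mul_pow, e1, e2]
  have h1 : 0 ≤ (R / r) ^ m * (r * s ^ 2 / r') ^ m := by positivity
  have h2 : 0 ≤ A ^ 2 * ((R / r) ^ m * (r * s ^ 2 / r') ^ m) * (r' / s) ^ (m + 2) := by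
    have := sq_nonneg A
    exact mul_nonneg (mul_nonneg this h1) ht
  calc Ca * t * (A ^ 2 * ((R / r) ^ m * (r * s ^ 2 / r') ^ m) * (r' / s) ^ (m + 2)) ≤
      C ^ 2 * Q ^ 2 * (A ^ 2 * ((R / r) ^ m * (r * s ^ 2 / r') ^ m) * (r' / s) ^ (m + 2)) :=
        mul_le_mul_of_nonneg_right hC h2
    _ = _ := by ring

theorem pf_SSC (hPKT : T_PKT) (hSSA : T_SSA) (hSSB : T_SSB) : T_SSC := by
  intro m L β Ψ Ξ ψ χ δ δ' hβ hΨ hΞ hδ hδ4 hδ' hL
  obtain ⟨Cp, hCp, hp⟩ := hPKT m β Ψ Ξ ψ χ hβ hΨ hΞ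
  have hD : 1 ≤ max 2 Cp := le_max_of_le_left (by norm_num)
  obtain ⟨Ca, hCa, ha⟩ := hSSA m L β (2 * δ') (max 2 Cp) hβ (by linarith) hD hL
  obtain ⟨Cb, hCb, hb⟩ := hSSB m L β (max 2 Cp) hβ hD hL
  set C : ℝ := 8 * Cp + Ca + Cb with hCdef
  have hC1 : 1 ≤ C := by linarith
  have hCa2 : Ca ≤ C ^ 2 := by
    have h1 : C ≤ C ^ 2 := by
      have := mul_le_mul_of_nonneg_left hC1 (show (0 : ℝ) ≤ C by linarith)
      rw [mul_one] at this
      rw [sq]
      exact this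
    linarith
  have hCb2 : Cb ≤ C ^ 2 := by
    have h1 : C ≤ C ^ 2 := by
      have := mul_le_mul_of_nonneg_left hC1 (show (0 : ℝ) ≤ C by linarith)
      rw [mul_one] at this
      rw [sq]
      exact this
    linarith
  refine ⟨C, hC1, ?_⟩
  intro κ R r A G S z₁ hκ hκ3 hR hCR hr1 hr2 hA hG
  have hR0 : 0 < R := by linarith
  have hsq : 1 ≤ Real.sqrt R := Real.one_le_sqrt.2 hR
  have hr0 : 0 < r := by linarith
  have hrp : r ≤ R / Cp := hr2.trans (div_le_div_of_nonneg_left hR0.le (by linarith) (by linarith))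
  have hrR : r ≤ R := hr2.trans (div_le_self hR0.le hC1)
  have hRd : 0 < R ^ δ := Real.rpow_pos_of_pos hR0 _
  have hneg : R ^ (-δ) = (R ^ δ)⁻¹ := Real.rpow_neg hR0.le _
  have hneg0 : 0 < R ^ (-δ) := Real.rpow_pos_of_pos hR0 _
  have h8 : Cp * R ^ (-δ) ≤ 1 / 8 := by
    rw [hneg, ← div_eq_mul_inv, div_le_iff₀ hRd]
    linarith
  obtain ⟨-, hp2⟩ := hp κ R r δ G S z₁ hκ hκ3 hδ hδ4 hR (by linarith) hG.1 hG.2.1
  obtain ⟨G', hT, hsup, hTF, hdom⟩ := hp2 hr1 hrp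
  classical
  set I : Finset (Fin m → ℤ) := S.image Prod.fst with hI
  have hTk : ∀ k ∈ I, TC (G' k) := fun k _ => hT k
  have hsub : Sub β (max 2 Cp) R G G' I := by
    refine ⟨hTk, ?_, ?_⟩
    · intro k _ ζ hζ
      obtain ⟨h1, h2⟩ := hsup k ζ hζ
      obtain ⟨h3, h4, -, -⟩ := h1
      have hs0 := sR_pos hR
      refine ⟨by linarith, by linarith, h2.trans ?_⟩
      exact mul_le_mul_of_nonneg_right (le_max_left _ _) hs0.le
    · intro k _ z
      refine (hdom k z).trans ?_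
      exact mul_le_mul_of_nonneg_right (le_max_right _ _) (norm_nonneg _)
  refine ⟨fun ζ => ∑ k ∈ I, G' k ζ, ⟨tc_sum hTk, ?_, ?_⟩, ?_⟩
  · intro ζ hζ
    obtain ⟨k, _, hk⟩ := Finset.exists_ne_zero_of_sum_ne_zero hζ
    obtain ⟨h1, -⟩ := hsup k ζ hk
    refine rg_mono ?_ ?_ (by positivity) h1
    · have : Cp * R ^ (-δ) ≤ C * R ^ (-δ) := mul_le_mul_of_nonneg_right (by linarith) hneg0.le
      linarith
    · linarith
  · intro φ hφ η s r' z₀ hs hs1 hr' hr's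
    have hr'0 : 0 < r' := by linarith
    have hRs : r' ≤ R * s ^ 2 := hr's.trans (mul_le_mul_of_nonneg_right hrR (sq_nonneg s))
    have ht : 0 ≤ (r' / s) ^ (m + 2) := by positivity
    have hQ : R ^ (2 * δ') = (R ^ δ') ^ 2 := by
      rw [← Real.rpow_natCast, ← Real.rpow_mul hR0.le]
      congr 1
      push_cast
      ring
    have hQ1 : 1 ≤ R ^ δ' := Real.one_le_rpow hR hδ'.le
    rcases le_total (Real.sqrt R) (r' / s) with h | h
    · refine (ha κ R A G G' I hκ (by linarith) hR hA hG hsub φ hφ η s r' z₀ hs hs1 hr' hRs h).trans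
        (ENNReal.ofReal_le_ofReal ?_)
      refine arith hr0 hr'0 hR0 ?_ ht
      rw [hQ]
      exact mul_le_mul_of_nonneg_right hCa2 (sq_nonneg _)
    · refine (hb κ R A G G' I hκ (by linarith) hR hA hG hsub φ hφ η s r' z₀ hs hs1 hr' hRs h).trans
        (ENNReal.ofReal_le_ofReal ?_)
      have h9 := arith (m := m) (R := R) (r := r) (s := s) (r' := r') (A := A) (C := C)
        (Ca := Cb) (Q := R ^ δ') (t := 1) hr0 hr'0 hR0 ?_ ht
      · rw [mul_one] at h9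
        exact h9
      · rw [mul_one]
        have h10 : 1 ≤ (R ^ δ') ^ 2 := one_le_pow₀ hQ1
        have h11 : C ^ 2 * 1 ≤ C ^ 2 * (R ^ δ') ^ 2 :=
          mul_le_mul_of_nonneg_left h10 (sq_nonneg _)
        linarith
  · intro z
    rw [TF_sum hTk]
    have h1 : ∀ k ∈ I, TF (G' k) z = (χ (r⁻¹ • (z - z₁)) : ℂ) *
        ∑ W ∈ S.filter (fun W => W.1 = k), Fp β ψ R δ G W z := fun k _ => hTF k z
    rw [Finset.sum_congr rfl h1, ← Finset.mul_sum]
    congr 1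
    rw [Finset.sum_fiberwise_of_maps_to (fun W hW => Finset.mem_image_of_mem _ hW)]

end Pool.Agent.H26.G.SSC
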